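import Pool.Agent.W610.HY.Stm

set_option autoImplicit false

namespace Pool.Agent.W693.HY.CIRC

open MeasureTheory Set Metric Filter Topology
open Pool.Agent.W610.HY

theorem circ_eq (c : ℂ) (r θ : ℝ) : circleMap c r θ = c + Complex.polarCoord.symm (r, θ) := by
  rw [Complex.polarCoord_symm_apply, circleMap, Complex.exp_mul_I]
  simp

theorem shift (f : ℝ → ENNReal) (hf : Function.Periodic f (2 * Real.pi)) :
    (∫⁻ θ in Ioc (0:ℝ) (2 * Real.pi), f θ) = ∫⁻ θ in Ioo (-Real.pi) Real.pi, f θ := by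
  have hT : 0 < 2 * Real.pi := Real.two_pi_pos
  have h := (isAddFundamentalDomain_Ioc hT 0 volume).setLIntegral_eq
    (isAddFundamentalDomain_Ioc hT (-Real.pi) volume) f hf.map_vadd_zmultiples
  have e1 : (0:ℝ) + 2 * Real.pi = 2 * Real.pi := by ring
  have e2 : -Real.pi + 2 * Real.pi = Real.pi := by ring
  rw [e1, e2] at h
  rw [h]
  exact (setLIntegral_congr Ioo_ae_eq_Ioc).symm

theorem main : CIRC := by
  intro m hm c ρ hρ hfin
  set G : ℂ → ENNReal := fun z => (ball c ρ).indicator m (c + z) with hG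
  have h1 : (∫⁻ z, G z) = ∫⁻ z in ball c ρ, m z := by
    rw [hG, lintegral_add_left_eq_self (fun z => (ball c ρ).indicator m z) c,
      lintegral_indicator measurableSet_ball]
  have h2 := Complex.lintegral_comp_polarCoord_symm G
  rw [h1] at h2
  have hGm : Measurable G := (hm.indicator measurableSet_ball).comp (measurable_const_add c)
  have hc : Measurable (fun p : ℝ × ℝ => Complex.polarCoord.symm p) := by
    have : (fun p : ℝ × ℝ => Complex.polarCoord.symm p) =
        fun p : ℝ × ℝ => (p.1 : ℂ) * (Real.cos p.2 + Real.sin p.2 * Complex.I) := by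
      funext p
      exact Complex.polarCoord_symm_apply p
    rw [this]
    fun_prop
  have hF : Measurable (fun p : ℝ × ℝ => ENNReal.ofReal p.1 • G (Complex.polarCoord.symm p)) := by
    have := hGm.comp hc
    exact (ENNReal.measurable_ofReal.comp measurable_fst).smul this
  rw [polarCoord_target, Measure.volume_eq_prod, ← Measure.prod_restrict,
    lintegral_prod _ hF.aemeasurable] at h2
  have h3 := ae_lt_top (μ := volume.restrict (Ioi (0:ℝ)))
    (f := fun r => ∫⁻ θ in Ioo (-Real.pi) Real.pi,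
      ENNReal.ofReal r • G (Complex.polarCoord.symm (r, θ))) hF.lintegral_prod_right'
    (by rw [h2]; exact hfin)
  rw [ae_restrict_iff' measurableSet_Ioi] at h3
  -- choose a radius
  have h4 : ∃ r ∈ Ioo (0:ℝ) ρ, (∫⁻ θ in Ioo (-Real.pi) Real.pi,
      ENNReal.ofReal r • G (Complex.polarCoord.symm (r, θ))) < ⊤ := by
    by_contra hcon
    push Not at hcon
    have hsub : Ioo (0:ℝ) ρ ⊆ {r : ℝ | ¬ (r ∈ Ioi (0:ℝ) → (∫⁻ θ in Ioo (-Real.pi) Real.pi,
      ENNReal.ofReal r • G (Complex.polarCoord.symm (r, θ))) < ⊤)} := by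
      intro r hr hh
      exact absurd (hh hr.1) (not_lt.mpr (hcon r hr))
    have h0 : volume (Ioo (0:ℝ) ρ) = 0 := measure_mono_null hsub (ae_iff.mp h3)
    rw [Real.volume_Ioo] at h0
    simp at h0
    linarith
  obtain ⟨r, hr, hlt⟩ := h4
  refine ⟨r, hr.1, hr.2, ?_⟩
  rw [shift (fun θ => m (circleMap c r θ)) (fun θ => by
    show m (circleMap c r (θ + 2 * Real.pi)) = m (circleMap c r θ)
    rw [periodic_circleMap c r θ])]
  have h5 : (∫⁻ θ in Ioo (-Real.pi) Real.pi,
      ENNReal.ofReal r • G (Complex.polarCoord.symm (r, θ))) =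
      ENNReal.ofReal r * ∫⁻ θ in Ioo (-Real.pi) Real.pi, m (circleMap c r θ) := by
    rw [← lintegral_const_mul' _ _ ENNReal.ofReal_ne_top]
    refine lintegral_congr fun θ => ?_
    rw [smul_eq_mul, circ_eq]
    congr 1
    apply indicator_of_mem
    rw [mem_ball, dist_eq_norm, add_sub_cancel_left, Complex.norm_polarCoord_symm,
      abs_of_pos hr.1]
    exact hr.2
  rw [h5] at hlt
  intro htop
  rw [htop, ENNReal.mul_top] at hlt
  · exact lt_irrefl _ hlt
  · simpa using hr.1

end Pool.Agent.W693.HY.CIRC
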